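import Pool.Agent.V11324.NS.HalfFin

set_option autoImplicit false

/-!
# The crossings of slabs by the infinite half-plane self-avoiding walk on the hexagonal grid, before
its cut times, are as wide as high up to a squared logarithm
-/

namespace Pool.Agent.Results.MP_df1d0b_pr.EvenCrossings

open Filter Topology MeasureTheory

/-- `e^{iπ/3}` -/
noncomputable def Om : ℂ := ⟨1 / 2, Real.sqrt 3 / 2⟩

/-- the hexagonal grid with edge length one and a vertex at `0` (the triangular grid without the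
centres of the hexagons) -/
def HexG : Set ℂ := {z | ∃ a b : ℤ, (a - b) % 3 ≠ 2 ∧ z = a + b * Om}

/-- the grid `Λ` multiplied by `u` -/
def rot (u : ℂ) (Λ : Set ℂ) : Set ℂ := {z | ∃ w ∈ Λ, z = u * w}

/-- self-avoiding walks with `n` steps in the closed upper half-plane, starting at `0`, with steps of
length `r` between points of `Λ`; a walk is continued by its last point -/
def PW (Λ : Set ℂ) (r : ℝ) (n : ℕ) : Set (ℕ → ℂ) :=
  {γ | γ 0 = 0 ∧ (∀ i, γ i ∈ Λ ∧ 0 ≤ (γ i).im) ∧ (∀ i < n, ‖γ (i + 1) - γ i‖ = r) ∧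
    (∀ i ≤ n, ∀ j ≤ n, γ i = γ j → i = j) ∧ ∀ i, n ≤ i → γ i = γ n}

/-- `k` is a cut time of `γ`: there is a horizontal line such that `γ` is below or on the line up to
the time `k`, and strictly above the line afterwards -/
def CutTime (k : ℕ) (γ : ℕ → ℂ) : Prop :=
  ∃ y : ℝ, (∀ i ≤ k, (γ i).im ≤ y) ∧ ∀ i, k < i → y < (γ i).im

/-- the height of the point `z` in the direction `e` -/
noncomputable def height (e z : ℂ) : ℝ := ((starRingEnd ℂ) e * z).re

/-- the coordinate of the point `z` orthogonal to `e` -/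
noncomputable def lat (e z : ℂ) : ℝ := ((starRingEnd ℂ) e * z).im

/-- Up to the time `k` the path `γ` has an uneven crossing with factor `w`: for one of the six
directions `e` of the edges (`e ^ 6 = -1`, if there is an edge perpendicular to the real line) and
some `i ≤ j ≤ k` the piece `γ i, …, γ j` stays between the lines orthogonal to `e` through its two end
points, the distance `H = height e (γ j) - height e (γ i)` of these lines is at least `3 r`, and the
width of the piece (its extent orthogonal to `e`) is at most `H / w` or larger than `w H`. -/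
def Uneven (r w : ℝ) (k : ℕ) (γ : ℕ → ℂ) : Prop :=
  ∃ (e : ℂ) (i j : ℕ), e ^ 6 = -1 ∧ i ≤ j ∧ j ≤ k ∧
    (∀ t, i ≤ t → t ≤ j → height e (γ i) ≤ height e (γ t) ∧ height e (γ t) ≤ height e (γ j)) ∧
    3 * r ≤ height e (γ j) - height e (γ i) ∧
    ((∀ a b, i ≤ a → a ≤ j → i ≤ b → b ≤ j →
        lat e (γ a) - lat e (γ b) ≤ (height e (γ j) - height e (γ i)) / w) ∨
      ∃ a b, i ≤ a ∧ a ≤ j ∧ i ≤ b ∧ b ≤ j ∧
        w * (height e (γ j) - height e (γ i)) < lat e (γ a) - lat e (γ b))

/-- There is a constant `C > 0` such that for the hexagonal grid of edge length `‖u‖` with a vertex at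
`0` and an edge at `0` perpendicular to the real line, the infinite half-plane self-avoiding walk
(the weak limit `μ` of the uniform measures on `n`-step half-plane walks) satisfies:
(1) for `k ≥ 2` and `s ≥ 1`, the probability that `k` is a cut time and that the walk up to the time
`k` has an uneven crossing with factor `C s (log k)^2` is at most `exp (-s (log k)^2)`;
(2) almost surely, for every sufficiently large cut time `k`, the walk up to the time `k` has no
uneven crossing with factor `C (log k)^2`: for all edge directions, all places and all heights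
`H ≥ 3 ‖u‖`, every piece between two lines at distance `H` has a width in
`(H / (C (log k)^2), C (log k)^2 H]`. -/
theorem result : ∃ C : ℝ, 0 < C ∧ ∀ u : ℂ, u ≠ 0 → (∃ z ∈ rot u HexG, ‖z‖ = ‖u‖ ∧ z.re = 0) →
    ∃ μ : Measure (ℕ → ℂ), IsProbabilityMeasure μ ∧
      (∀ᵐ γ ∂μ, γ 0 = 0 ∧ (∀ i, γ i ∈ rot u HexG ∧ 0 ≤ (γ i).im) ∧
        (∀ i, ‖γ (i + 1) - γ i‖ = ‖u‖) ∧ Function.Injective γ) ∧
      (∀ F : BoundedContinuousFunction (ℕ → ℂ) ℝ,
        Tendsto (fun n => (∑ᶠ γ ∈ PW (rot u HexG) ‖u‖ n, F γ) /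
          ((PW (rot u HexG) ‖u‖ n).ncard : ℝ)) atTop (𝓝 (∫ γ, F γ ∂μ))) ∧
      (∀ k s : ℕ, 2 ≤ k → 1 ≤ s →
        μ {γ | CutTime k γ ∧ Uneven ‖u‖ (C * s * Real.log k ^ 2) k γ} ≤
          ENNReal.ofReal (Real.exp (-(s * Real.log k ^ 2)))) ∧
      ∀ᵐ γ ∂μ, ∀ᶠ k : ℕ in atTop, CutTime k γ → ¬ Uneven ‖u‖ (C * Real.log k ^ 2) k γ := by
  obtain ⟨C, hC, h⟩ := Pool.Agent.V11324.NS.prob_half
  refine ⟨2 * C, by positivity, ?_⟩
  intro u hu hv
  obtain ⟨c0, hc, E, hE⟩ := Pool.Agent.W818.TD.emb_vert u hu hv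
  obtain ⟨μ, h1, h2, h3, h4⟩ :=
    Pool.Agent.H976R3.HPL.concl_of_emb E Pool.Agent.H976R3.HPL.facts_hexA
  have := h1
  have hr : 0 < ‖u‖ := norm_pos_iff.2 hu
  have h5 := h hc hr E hE μ h2 h3
  refine ⟨μ, h1, h2, h4, ?_, Pool.Agent.V11324.NS.as_half μ h5⟩
  intro k s hk hs
  refine (measure_mono ?_).trans (h5 k s hk hs)
  rintro γ ⟨g1, g2⟩
  have hkr : (2 : ℝ) ≤ k := by exact_mod_cast hk
  have hlog : 0 < Real.log (k : ℝ) := Real.log_pos (by linarith)
  have hsr : (1 : ℝ) ≤ s := by exact_mod_cast hs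
  refine ⟨g1, Pool.Agent.V11324.NS.UnevG_mono hr (by positivity) ?_ g2⟩
  have : 0 ≤ C * s * Real.log (k : ℝ) ^ 2 := by positivity
  linarith

end Pool.Agent.Results.MP_df1d0b_pr.EvenCrossings
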