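import Pool.Agent.V11237.SXT.Half

set_option autoImplicit false

/-!
# The half-plane self-avoiding walk on `ℤ²` follows every corridor with quasi-polynomial probability

The uniform `n`-step self-avoiding walk on `ℤ²` in the closed upper half-plane, rescaled by `L` and
interpolated linearly, stays in any given connected open subset `U` of the open upper half-plane which
contains a half-neighbourhood of the origin and a cone near infinity, together with the interval of the
real line next to the origin, with probability at least `exp (- K (log n) ^ 3)`, for all `n` and for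
all scales `L ≥ K`. The set `U` can be a thin neighbourhood of an arbitrary curve in the half-plane
from the origin to infinity. For `L` of order at most `√n` the walk has to leave every bounded part of
`U`, hence it follows the corridor.
-/

namespace Pool.Agent.Results.MP_df1d0b_pr.EveryCorridor

/-- The `n`-step self-avoiding walks on `ℤ²` in the closed upper half-plane, started at the origin. -/
def walks (n : ℕ) : Set (Fin (n + 1) → ℤ × ℤ) :=
  {w | w 0 = 0 ∧ Function.Injective w ∧ (∀ i : Fin n,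
    |(w i.castSucc).1 - (w i.succ).1| + |(w i.castSucc).2 - (w i.succ).2| = 1) ∧ ∀ i, 0 ≤ (w i).2}

/-- The probability of the event `E` under the uniform law `μ_n` on the `n`-step half-plane
self-avoiding walks. -/
noncomputable def prob (n : ℕ) (E : (Fin (n + 1) → ℤ × ℤ) → Prop) : ℝ :=
  ({w | w ∈ walks n ∧ E w}.ncard : ℝ) / ((walks n).ncard : ℝ)

/-- The point `v / L` of the plane. -/
noncomputable def pt (L : ℝ) (v : ℤ × ℤ) : ℝ × ℝ := ((v.1 : ℝ) / L, (v.2 : ℝ) / L)

/-- The polygonal path through the points `w i / L` stays in `R`. -/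
def StaysIn (R : Set (ℝ × ℝ)) (L : ℝ) (n : ℕ) (w : Fin (n + 1) → ℤ × ℤ) : Prop :=
  ∀ i : Fin n, segment ℝ (pt L (w i.castSucc)) (pt L (w i.succ)) ⊆ R

/-- `U` is a corridor with half-width `ρ` at the origin: a connected open subset of the open upper
half-plane which contains the points `x` with `|x.1| < ρ`, `0 < x.2 < ρ` and a cone near infinity (for
some `e ≠ 0` and `θ > 0` the balls of the maximum norm with centre `t e` and radius `θ t` for all
`t ≥ 1`). -/
def Corridor (U : Set (ℝ × ℝ)) (ρ : ℝ) : Prop :=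
  IsOpen U ∧ IsConnected U ∧ (∀ x ∈ U, 0 < x.2) ∧
    (∀ x : ℝ × ℝ, |x.1| < ρ → 0 < x.2 → x.2 < ρ → x ∈ U) ∧
    ∃ (e : ℝ × ℝ) (θ : ℝ), e ≠ 0 ∧ 0 < θ ∧
      ∀ t : ℝ, 1 ≤ t → Metric.closedBall (t • e) (θ * t) ⊆ U

/-- **Theorem.** For every corridor `U` with half-width `ρ > 0` at the origin there is `K` such that for
all `n ≥ 2` and all real `L ≥ K` the uniform `n`-step half-plane self-avoiding walk on `ℤ²`, rescaled
by `L`, stays in `U ∪ (-ρ, ρ) × {0}` with probability at least `exp (- K (log n) ^ 3)`. -/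
theorem result (U : Set (ℝ × ℝ)) (ρ : ℝ) (hρ : 0 < ρ) (hU : Corridor U ρ) :
    ∃ K : ℝ, ∀ n : ℕ, 2 ≤ n → ∀ L : ℝ, K ≤ L →
      Real.exp (-(K * Real.log n ^ 3)) ≤ prob n (StaysIn (U ∪ {x | |x.1| < ρ ∧ x.2 = 0}) L n) := by
  obtain ⟨hU1, hU2, hU3, hU4, e, θ, he, hθ, hcone⟩ := hU
  obtain ⟨K, hK, h⟩ :=
    Pool.Agent.V11237.SXT.half hU1 hU2.isPreconnected hρ hU4 hU3 he hθ hcone
  refine ⟨K + 4 / ρ ^ 2, ?_⟩
  intro n hn L hL
  have hρ2 : 0 < 4 / ρ ^ 2 := by positivity
  have hLK : K ≤ L := by linarith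
  have hL0 : 0 < L := by linarith
  have hnr : (2 : ℝ) ≤ n := by exact_mod_cast hn
  have hln : 0 ≤ Real.log (n : ℝ) ^ 3 := pow_nonneg (Real.log_natCast_nonneg n) 3
  have hsubw : walks n ⊆ Pool.Agent.H122R3.SX.walks n := fun w hw => ⟨hw.1, hw.2.1, hw.2.2.1⟩
  have hfin : (walks n).Finite := (Pool.Agent.H122R3.SX.walks_finite n).subset hsubw
  have hcard : ((walks n).ncard : ℝ) ≤ (Pool.Agent.H122R3.SX.c n : ℝ) := by
    have h1 := Set.ncard_le_ncard hsubw (Pool.Agent.H122R3.SX.walks_finite n)
    rw [Pool.Agent.H122R3.SX.ncard_walks n] at h1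
    exact_mod_cast h1
  have hpos : (0 : ℝ) < (walks n).ncard := by
    have : (walks n).Nonempty := by
      refine ⟨fun i => ((i : ℕ), 0), rfl, ?_, ?_, ?_⟩
      · intro i j hij
        simp only [Prod.mk.injEq, and_true] at hij
        exact Fin.ext (by exact_mod_cast hij)
      · intro i
        simp
      · intro i
        simp
    have := (Set.ncard_pos hfin).2 this
    exact_mod_cast this
  have hexp1 : Real.exp (-((K + 4 / ρ ^ 2) * Real.log n ^ 3)) ≤ 1 := by
    apply Real.exp_le_one_iff.2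
    have : 0 ≤ (K + 4 / ρ ^ 2) * Real.log n ^ 3 := by positivity
    linarith
  unfold prob
  rw [le_div_iff₀ hpos]
  rcases le_or_gt L ((n : ℝ) ^ 2) with hLn | hLn
  · have h1 := h n hn L hLK hLn
    have h2 : Real.exp (-((K + 4 / ρ ^ 2) * Real.log n ^ 3)) * ((walks n).ncard : ℝ) ≤
        Real.exp (-(K * Real.log n ^ 3)) * (Pool.Agent.H122R3.SX.c n : ℝ) := by
      apply mul_le_mul _ hcard (Nat.cast_nonneg _) (Real.exp_pos _).le
      apply Real.exp_le_exp.2
      nlinarith [mul_nonneg hρ2.le hln]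
    refine h2.trans (h1.trans ?_)
    have h3 : {f | f ∈ Pool.Agent.H122R3.SX.walks n ∧ (∀ i, 0 ≤ (f i).2) ∧ ∀ i : Fin n,
        segment ℝ (Pool.Agent.V11237.SXT.pt L (f i.castSucc))
          (Pool.Agent.V11237.SXT.pt L (f i.succ)) ⊆ Pool.Agent.V11237.SXT.Reg U ρ} ⊆
        {w | w ∈ walks n ∧ StaysIn (U ∪ {x | |x.1| < ρ ∧ x.2 = 0}) L n w} :=
      fun f hf => ⟨⟨hf.1.1, hf.1.2.1, hf.1.2.2, hf.2.1⟩, hf.2.2⟩
    exact_mod_cast Set.ncard_le_ncard h3 (hfin.subset fun f hf => hf.1)
  · -- large scales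
    have h5 : {w | w ∈ walks n ∧ StaysIn (U ∪ {x | |x.1| < ρ ∧ x.2 = 0}) L n w} = walks n := by
      ext f
      constructor
      · exact fun hf => hf.1
      · intro hf
        refine ⟨hf, fun i => ?_⟩
        have h6 : (n : ℝ) / L ≤ ρ / 2 := by
          rw [div_le_iff₀ hL0]
          rcases le_or_gt ((n : ℝ)) (2 / ρ) with h7 | h7
          · have h8 : 4 / ρ ^ 2 ≤ L := by linarith
            have h10 : ρ / 2 * (4 / ρ ^ 2) ≤ ρ / 2 * L := by gcongr
            have h11 : ρ / 2 * (4 / ρ ^ 2) = 2 / ρ := by field_simp; norm_num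
            linarith
          · rw [div_lt_iff₀ hρ] at h7
            have h8 : ρ / 2 * (n : ℝ) ^ 2 ≤ ρ / 2 * L := by gcongr
            nlinarith
        obtain ⟨S, hS⟩ : ∃ S : Set (ℝ × ℝ), S = Set.Icc (-(ρ / 2)) (ρ / 2) ×ˢ Set.Icc 0 (ρ / 2) :=
          ⟨_, rfl⟩
        have hSc : Convex ℝ S := by
          rw [hS]
          exact (convex_Icc _ _).prod (convex_Icc _ _)
        have hmem : ∀ j, pt L (f j) ∈ S := by
          intro j
          have h8 := Pool.Agent.V11237.SXT.walks_abs (hsubw hf) j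
          have h8' : |((f j).1 : ℝ)| + |((f j).2 : ℝ)| ≤ n := by exact_mod_cast h8
          have k1 := abs_nonneg ((f j).1 : ℝ)
          have k2 := abs_nonneg ((f j).2 : ℝ)
          have k3 : (0 : ℝ) ≤ (f j).2 := by exact_mod_cast hf.2.2.2 j
          rw [div_le_iff₀ hL0] at h6
          have k4 : |((f j).1 : ℝ)| ≤ ρ / 2 * L := by linarith
          have k5 : |((f j).2 : ℝ)| ≤ ρ / 2 * L := by linarith
          rw [abs_le] at k4
          rw [abs_of_nonneg k3] at k5
          rw [hS]
          unfold pt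
          refine ⟨⟨?_, ?_⟩, ?_, ?_⟩
          · simp only
            rw [le_div_iff₀ hL0]; linarith
          · simp only
            rw [div_le_iff₀ hL0]; linarith
          · simp only
            positivity
          · simp only
            rw [div_le_iff₀ hL0]; linarith
        refine (hSc.segment_subset (hmem _) (hmem _)).trans ?_
        intro x hx
        rw [hS] at hx
        obtain ⟨⟨b1, b2⟩, b3, b4⟩ := hx
        have b5 : |x.1| < ρ := by rw [abs_lt]; constructor <;> linarith
        rcases b3.lt_or_eq with b6 | b6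
        · exact Or.inl (hU4 x b5 b6 (by linarith))
        · exact Or.inr ⟨b5, b6.symm⟩
    rw [h5]
    nlinarith

end Pool.Agent.Results.MP_df1d0b_pr.EveryCorridor
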