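import Pool.Agent.V11252.SAW.HalfP

/-!
# The half-plane self-avoiding walk pulled or pushed by a force

The uniform `n`-step self-avoiding walk on `ℤ²` in the closed upper half plane is weighted by
`exp (h · ω(n))`, `h` an arbitrary force.  Let `Λ` be the free energy of the full-plane walk.

(1) If `h` points into the half plane then the free energy of the half-plane walk is `Λ (h)`, up to
an error `K (log n)^2` in the logarithm of the normalised partition function, with one constant for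
all forces and all lengths.  If `h` points out of the half plane (the end point is pushed towards the
boundary, however strongly) it is `Λ (h₁, 0)`: only the component parallel to the boundary counts.
The mean height `Y_n (g)` under a vertical force `g ≥ 0` satisfies
`n Λ (0, g) - K (log n)^2 ≤ g Y_n (g) ≤ n (Λ (0, 2 g) - Λ (0, g)) + K (log n)^2`.

(2) Each half of the size exponent `θ` of the half-plane walk (at stretched exponential precision) is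
equivalent to the same half of `Λ (h) = |h| ^ (1 / θ + o(1))` for small forces, and it implies the same
half of the scaling law `Y_n (g) = n g ^ (1 / θ - 1 + o(1))` for the height (`g ^ (1 / 3)` for the
conjectured exponent `θ = 3/4`), as soon as `n ≥ g ^ (- 1 / θ - ε)`.

The proof uses the comparison of the end point laws in the half plane and in the plane
(`Pool.Agent.Y981.L2.HalfZ`, the library behind the starting result `EndPointFullPlaneLogTwo`, which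
has no force), reflection, Legendre duality, and convexity.
-/

set_option autoImplicit false

namespace Pool.Agent.Results.MP_df1d0b_pr.PulledHalfPlane

open Filter Topology
open Pool.Agent

/-- `ω` is an `n`-step self-avoiding walk on `ℤ²` started at the origin. -/
def IsSAW (n : ℕ) (ω : Fin (n + 1) → ℤ × ℤ) : Prop :=
  ω 0 = (0, 0) ∧
  (∀ i : Fin n, |(ω i.succ).1 - (ω i.castSucc).1| + |(ω i.succ).2 - (ω i.castSucc).2| = 1) ∧
  Function.Injective ω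

/-- the walk stays in the closed upper half plane -/
def InHalf (n : ℕ) (ω : Fin (n + 1) → ℤ × ℤ) : Prop := ∀ i, 0 ≤ (ω i).2

/-- `c_n`: the number of `n`-step self-avoiding walks from the origin -/
noncomputable def c (n : ℕ) : ℕ := Nat.card {ω : Fin (n + 1) → ℤ × ℤ // IsSAW n ω}

/-- the number of `n`-step self-avoiding walks from the origin in the closed upper half plane -/
noncomputable def h (n : ℕ) : ℕ := Nat.card {ω : Fin (n + 1) → ℤ × ℤ // IsSAW n ω ∧ InHalf n ω}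

/-- `P⁺_n[|ω(n)| ≥ r]` for the uniform `n`-step self-avoiding walk in the half plane -/
noncomputable def farH (n : ℕ) (r : ℝ) : ℝ :=
  (Nat.card {ω : Fin (n + 1) → ℤ × ℤ // IsSAW n ω ∧ InHalf n ω ∧
    r ≤ Real.sqrt (((ω (Fin.last n)).1 : ℝ) ^ 2 + ((ω (Fin.last n)).2 : ℝ) ^ 2)} : ℝ) / (h n : ℝ)

/-- the partition function `∑_ω exp (f · ω(n))` of the walks in the plane under the force `f` -/
noncomputable def Zf (n : ℕ) (f : ℝ × ℝ) : ℝ :=
  ∑ᶠ ω ∈ {ω : Fin (n + 1) → ℤ × ℤ | IsSAW n ω},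
    Real.exp (f.1 * (ω (Fin.last n)).1 + f.2 * (ω (Fin.last n)).2)

/-- the partition function `∑_ω exp (f · ω(n))` of the walks in the closed upper half plane under the
force `f` -/
noncomputable def Zh (n : ℕ) (f : ℝ × ℝ) : ℝ :=
  ∑ᶠ ω ∈ {ω : Fin (n + 1) → ℤ × ℤ | IsSAW n ω ∧ InHalf n ω},
    Real.exp (f.1 * (ω (Fin.last n)).1 + f.2 * (ω (Fin.last n)).2)

/-- the mean height of the end point of the half-plane walk under the vertical force `g` -/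
noncomputable def Y (n : ℕ) (g : ℝ) : ℝ :=
  (∑ᶠ ω ∈ {ω : Fin (n + 1) → ℤ × ℤ | IsSAW n ω ∧ InHalf n ω},
    ((ω (Fin.last n)).2 : ℝ) * Real.exp (g * (ω (Fin.last n)).2)) / Zh n (0, g)

theorem c_eq (n : ℕ) : c n = TH795.EP.c n := TH795.EP2.card_walks n

theorem hi_iff {n : ℕ} {w : List H981.St} (hw : w.length = n) :
    Y981.L2.Hi w ↔ InHalf n (TH795.EP2.ew n w) := by
  constructor
  · intro h i
    exact h i
  · intro h k
    rcases Nat.lt_or_ge k (n + 1) with h1 | h1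
    · exact h ⟨k, h1⟩
    · rw [Y981.L2.path_ge (by omega), hw]
      exact h ⟨n, by omega⟩

theorem h_eq (n : ℕ) : h n = Y981.L2.hp n := by
  rw [← Y981.L2.card_hi_all]
  apply TH795.EP2.ncard_eq n (fun w => Y981.L2.Hi w) (fun ω => InHalf n ω)
  intro w hw
  exact hi_iff hw

theorem farH_eq (n : ℕ) (r : ℝ) : farH n r = Y981.L2.farp n r := by
  unfold farH Y981.L2.farp
  rw [h_eq]
  congr 2
  have e1 := TH795.EP2.ncard_eq n (fun w => Y981.L2.Hi w ∧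
    r ≤ Real.sqrt ((H981.dx w : ℝ) ^ 2 + (H981.dy w : ℝ) ^ 2))
    (fun ω => InHalf n ω ∧
      r ≤ Real.sqrt (((ω (Fin.last n)).1 : ℝ) ^ 2 + ((ω (Fin.last n)).2 : ℝ) ^ 2)) (by
      intro w hw
      rw [TH795.EP2.ew_last n hw, hi_iff hw])
  refine Eq.trans e1 ?_
  apply le_antisymm
  · apply TH795.EP.card_le_of_decode H981.ng
    intro w hw
    rw [TH795.EP.mem_fs] at hw
    obtain ⟨⟨h1, h2, h3⟩, h4⟩ := hw
    refine ⟨H981.ng w, TH795.EP.mem_fs.2 ⟨⟨h1.ng, fun k => ?_, ?_⟩, ?_⟩, H981.ng_ng w⟩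
    · rw [Y981.L2.path_ng_snd]
      have := h2 k
      omega
    · rw [H981.dx_ng, H981.dy_ng]
      push_cast
      rw [neg_sq]
      exact h3
    · rw [H981.length_ng, h4]
  · apply TH795.EP.card_le_of_decode H981.ng
    intro w hw
    rw [TH795.EP.mem_fs] at hw
    obtain ⟨⟨h1, h2, h3⟩, h4⟩ := hw
    refine ⟨H981.ng w, TH795.EP.mem_fs.2 ⟨⟨h1.ng, fun k => ?_, ?_⟩, ?_⟩, H981.ng_ng w⟩
    · rw [Y981.L2.path_ng_snd]
      have := h2 k
      omega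
    · rw [H981.dx_ng, H981.dy_ng]
      push_cast
      rw [neg_sq]
      exact h3
    · rw [H981.length_ng, h4]

theorem sum_eq (n : ℕ) (F : ℤ × ℤ → ℝ) :
    ∑ᶠ ω ∈ {ω : Fin (n + 1) → ℤ × ℤ | IsSAW n ω}, F (ω (Fin.last n)) =
      ∑ w ∈ TH795.EP.fs H981.Saw n, F (H981.dx w, H981.dy w) := by
  have e := TH795.EP2.image_eq n (fun _ => True) (fun _ => True) (fun _ _ => Iff.rfl)
  simp only [and_true] at e
  have e2 : {ω : Fin (n + 1) → ℤ × ℤ | IsSAW n ω} =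
      TH795.EP2.ew n '' (TH795.EP.fs H981.Saw n : Set (List H981.St)) := e
  rw [e2, finsum_mem_image, finsum_mem_coe_finset]
  · apply Finset.sum_congr rfl
    intro w hw
    rw [TH795.EP.mem_fs] at hw
    rw [TH795.EP2.ew_last n hw.2]
  · intro w hw w' hw' he
    rw [Finset.mem_coe, TH795.EP.mem_fs] at hw hw'
    exact TH795.EP2.ew_injOn n hw.2 hw'.2 he

theorem sumH_eq (n : ℕ) (F : ℤ × ℤ → ℝ) :
    ∑ᶠ ω ∈ {ω : Fin (n + 1) → ℤ × ℤ | IsSAW n ω ∧ InHalf n ω}, F (ω (Fin.last n)) =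
      ∑ w ∈ TH795.EP.fs (fun w => H981.Saw w ∧ Y981.L2.Hi w) n, F (H981.dx w, H981.dy w) := by
  have e := TH795.EP2.image_eq n (fun w => Y981.L2.Hi w) (fun ω => InHalf n ω)
    (fun w hw => hi_iff hw)
  have e2 : {ω : Fin (n + 1) → ℤ × ℤ | IsSAW n ω ∧ InHalf n ω} =
      TH795.EP2.ew n '' (TH795.EP.fs (fun w => H981.Saw w ∧ Y981.L2.Hi w) n :
        Set (List H981.St)) := e
  rw [e2, finsum_mem_image, finsum_mem_coe_finset]
  · apply Finset.sum_congr rfl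
    intro w hw
    rw [TH795.EP.mem_fs] at hw
    rw [TH795.EP2.ew_last n hw.2]
  · intro w hw w' hw' he
    rw [Finset.mem_coe, TH795.EP.mem_fs] at hw hw'
    exact TH795.EP2.ew_injOn n hw.2 hw'.2 he

theorem Zf_eq (n : ℕ) (f : ℝ × ℝ) : Zf n f = Y981.L2.Z f n :=
  sum_eq n (fun x => Real.exp (f.1 * x.1 + f.2 * x.2))

theorem Zh_eq (n : ℕ) (f : ℝ × ℝ) : Zh n f = V11252.SAW.ZH f n :=
  sumH_eq n (fun x => Real.exp (f.1 * x.1 + f.2 * x.2))

theorem Y_eq (n : ℕ) (g : ℝ) : Y n g = V11252.SAW.YH g n := by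
  unfold Y V11252.SAW.YH
  rw [Zh_eq]
  congr 1
  exact sumH_eq n (fun x => (x.2 : ℝ) * Real.exp (g * x.2))

/-- **Main result.** There is a function `Λ` on `ℝ²` with the following properties.
(1) There is `K` such that for all `n ≥ 2`: for every force `f`
`|log (Z_n (f) / c_n) - n Λ (f)| ≤ K (log n)^2` (walks in the plane); for every `f` with `f₂ ≥ 0`
`|log (Z⁺_n (f) / h_n) - n Λ (f)| ≤ K (log n)^2` (walks in the half plane); for every `f` with `f₂ ≤ 0`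
`n Λ (f₁, 0) - 2 |f₁| - K (log n)^2 ≤ log (Z⁺_n (f) / h_n) ≤ n Λ (f₁, 0) + K (log n)^2`; and
`n Λ (0, g) - K (log n)^2 ≤ g Y_n (g) ≤ n (Λ (0, 2 g) - Λ (0, g)) + K (log n)^2` for every `g ≥ 0`.
(2) Let `0 < θ < 1`.
(a) `P⁺_n[|ω(n)| ≥ n ^ (θ + ε)] ≤ exp (-n ^ δ)` for large `n`, for every `ε > 0` and some
`δ = δ (ε) > 0`, if and only if `Λ (f) ≤ ‖f‖ ^ (1 / θ - ε)` for small `f ≠ 0`, for every `ε > 0`, and
then for every `ε > 0` there is `g₀ > 0` with `Y_n (g) / n ≤ g ^ (1 / θ - 1 - ε)` for all `0 < g < g₀`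
and `n ≥ max (2, g ^ (- 1 / θ))`.
(b) `P⁺_n[|ω(n)| ≥ n ^ (θ - ε)] ≥ exp (-n ^ δ)` for large `n`, for all `ε, δ > 0`, if and only if
`Λ (f) ≥ ‖f‖ ^ (1 / θ + ε)` for small `f ≠ 0`, for every `ε > 0`, and then for every `ε > 0` there is
`g₀ > 0` with `Y_n (g) / n ≥ g ^ (1 / θ - 1 + ε)` for all `0 < g < g₀` and
`n ≥ max (2, g ^ (- (1 / θ + ε)))`. -/
theorem result : ∃ Λ : ℝ × ℝ → ℝ,
    (∃ K : ℝ, ∀ n : ℕ, 2 ≤ n →
      (∀ f : ℝ × ℝ, |Real.log (Zf n f / c n) - n * Λ f| ≤ K * Real.log n ^ 2) ∧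
      (∀ f : ℝ × ℝ, 0 ≤ f.2 → |Real.log (Zh n f / h n) - n * Λ f| ≤ K * Real.log n ^ 2) ∧
      (∀ f : ℝ × ℝ, f.2 ≤ 0 →
        n * Λ (f.1, 0) - 2 * |f.1| - K * Real.log n ^ 2 ≤ Real.log (Zh n f / h n) ∧
        Real.log (Zh n f / h n) ≤ n * Λ (f.1, 0) + K * Real.log n ^ 2) ∧
      (∀ g : ℝ, 0 ≤ g → n * Λ (0, g) - K * Real.log n ^ 2 ≤ g * Y n g ∧
        g * Y n g ≤ n * (Λ (0, 2 * g) - Λ (0, g)) + K * Real.log n ^ 2)) ∧
    ∀ θ : ℝ, 0 < θ → θ < 1 →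
      ((∀ ε : ℝ, 0 < ε → ∃ δ : ℝ, 0 < δ ∧ ∀ᶠ n : ℕ in atTop,
          farH n ((n : ℝ) ^ (θ + ε)) ≤ Real.exp (-(n : ℝ) ^ δ)) ↔
        ∀ ε : ℝ, 0 < ε → ∀ᶠ f in 𝓝[≠] (0 : ℝ × ℝ), Λ f ≤ ‖f‖ ^ (1 / θ - ε)) ∧
      ((∀ ε : ℝ, 0 < ε → ∃ δ : ℝ, 0 < δ ∧ ∀ᶠ n : ℕ in atTop,
          farH n ((n : ℝ) ^ (θ + ε)) ≤ Real.exp (-(n : ℝ) ^ δ)) →
        ∀ ε : ℝ, 0 < ε → ∃ g₀ : ℝ, 0 < g₀ ∧ ∀ g : ℝ, 0 < g → g < g₀ → ∀ n : ℕ, 2 ≤ n →
          g ^ (-(1 / θ)) ≤ (n : ℝ) → Y n g / n ≤ g ^ (1 / θ - 1 - ε)) ∧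
      ((∀ ε : ℝ, 0 < ε → ∀ δ : ℝ, 0 < δ → ∀ᶠ n : ℕ in atTop,
          Real.exp (-(n : ℝ) ^ δ) ≤ farH n ((n : ℝ) ^ (θ - ε))) ↔
        ∀ ε : ℝ, 0 < ε → ∀ᶠ f in 𝓝[≠] (0 : ℝ × ℝ), ‖f‖ ^ (1 / θ + ε) ≤ Λ f) ∧
      ((∀ ε : ℝ, 0 < ε → ∀ δ : ℝ, 0 < δ → ∀ᶠ n : ℕ in atTop,
          Real.exp (-(n : ℝ) ^ δ) ≤ farH n ((n : ℝ) ^ (θ - ε))) →
        ∀ ε : ℝ, 0 < ε → ∃ g₀ : ℝ, 0 < g₀ ∧ ∀ g : ℝ, 0 < g → g < g₀ → ∀ n : ℕ, 2 ≤ n →
          g ^ (-(1 / θ + ε)) ≤ (n : ℝ) → g ^ (1 / θ - 1 + ε) ≤ Y n g / n) := by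
  refine ⟨Y981.L2.Lam, ?_, ?_⟩
  · obtain ⟨K1, hK1, h1⟩ := V11252.SAW.free_energy
    obtain ⟨K2, hK2, h2⟩ := V11252.SAW.half_energy
    obtain ⟨K3, hK3, h3⟩ := V11252.SAW.half_height
    refine ⟨K1 + K2 + K3, fun n hn => ?_⟩
    have p1 : 0 ≤ K1 * Real.log (n : ℝ) ^ 2 := by positivity
    have p2 : 0 ≤ K2 * Real.log (n : ℝ) ^ 2 := by positivity
    have p3 : 0 ≤ K3 * Real.log (n : ℝ) ^ 2 := by positivity
    refine ⟨fun f => ?_, fun f hf => ?_, fun f hf => ?_, fun g hg => ?_⟩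
    · have g1 := h1 n hn f
      rw [Zf_eq, c_eq]
      linarith
    · obtain ⟨g1, g2, -⟩ := h2 n hn f
      rw [max_eq_left hf] at g1
      have g3 := g2 hf
      have e1 : (f.1, f.2) = f := rfl
      rw [e1] at g1
      rw [Zh_eq, h_eq, abs_le]
      constructor <;> linarith
    · obtain ⟨g1, -, g3⟩ := h2 n hn f
      rw [max_eq_right hf] at g1
      rw [Zh_eq, h_eq]
      constructor <;> linarith
    · obtain ⟨g1, g2⟩ := h3 n hn g hg
      rw [Y_eq, V11252.SAW.Lam_vert, V11252.SAW.Lam_vert]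
      constructor <;> linarith
  · intro θ hθ hθ1
    simp only [farH_eq, Y_eq]
    obtain ⟨K, hK, hw⟩ := V11252.SAW.height_small
    have hU : Y981.L2.HalfUp θ ↔ V11252.SAW.FUp θ :=
      (Y981.L2.halfUp_iff θ).trans (V11252.SAW.sizeUp_iff hθ hθ1)
    have hL : Y981.L2.HalfLow θ ↔ V11252.SAW.FLow θ :=
      (Y981.L2.halfLow_iff θ).trans (V11252.SAW.sizeLow_iff hθ hθ1)
    refine ⟨hU, fun h ε hε => ?_, hL, fun h ε hε => ?_⟩
    · exact V11252.SAW.pincus_upper_gen2 hθ (hU.1 h) hε hK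
        (D := fun f n => V11252.SAW.YH f n) (fun n hn f hf0 hf1 => (hw n hn f hf0 hf1).2)
    · exact V11252.SAW.pincus_lower_gen hθ (hL.1 h) hε hK
        (D := fun f n => V11252.SAW.YH f n) (fun n hn f hf0 hf1 => (hw n hn f hf0 hf1).1)

end Pool.Agent.Results.MP_df1d0b_pr.PulledHalfPlane
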