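import Pool.Agent.H315.SAW.HalfStrip
import Pool.Agent.TH795.EP2.Fin

/-!
# The half-plane self-avoiding walk: prescribed shapes, half boxes and small heights

Let `ξ_m` be the correlation length of the self-avoiding walk on `ℤ²` at distance `1/m` from the
critical point.  The uniform self-avoiding walk in the closed upper half-plane `y ≥ 0` follows every
coarse self-avoiding walk with `N` steps which stays at positive heights after time `0`, dilated by
some `D ≤ K ξ_m (log m)^2`, with probability at least `exp (- K (N + 1) (log m)^3)`.  Its height is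
at most `h` during all `n` steps with probability at least
`exp (- K ((log m)^3 + (n/m) (log m)^2))` if `h ≥ K ξ_m (log m)^2`, and at most
`exp (K (log n)^2 + (K - n/m) (log m)^2)` if `K (h + 1) ξ_m (log m)^2 ≤ m`.  Lower bounds for the
probability to stay in a half box `[-r, r] × [0, r]` follow too.
-/

set_option autoImplicit false

namespace Pool.Agent.Results.MP_df1d0b_pr.SmallHeightsAndShapes

open Filter Topology

/-- `ω` is an `n`-step self-avoiding walk on `ℤ²` started at the origin. -/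
def IsSAW (n : ℕ) (ω : Fin (n + 1) → ℤ × ℤ) : Prop :=
  ω 0 = (0, 0) ∧
  (∀ i : Fin n, |(ω i.succ).1 - (ω i.castSucc).1| + |(ω i.succ).2 - (ω i.castSucc).2| = 1) ∧
  Function.Injective ω

/-- `ω` is an `n`-step self-avoiding walk on `ℤ²` started at the origin which stays in the closed
upper half-plane. -/
def IsHSAW (n : ℕ) (ω : Fin (n + 1) → ℤ × ℤ) : Prop := IsSAW n ω ∧ ∀ t, 0 ≤ (ω t).2

/-- `c_n`: the number of `n`-step self-avoiding walks from the origin (in the full plane) -/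
noncomputable def c (n : ℕ) : ℕ := Nat.card {ω : Fin (n + 1) → ℤ × ℤ // IsSAW n ω}

/-- `c_n(x)`: the number of `n`-step self-avoiding walks from the origin to `x` -/
noncomputable def cx (n : ℕ) (x : ℤ × ℤ) : ℕ :=
  Nat.card {ω : Fin (n + 1) → ℤ × ℤ // IsSAW n ω ∧ ω (Fin.last n) = x}

/-- the two-point function `G_z(x) = ∑_n c_n(x) z^n` -/
noncomputable def G (z : ℝ) (x : ℤ × ℤ) : ℝ := ∑' n : ℕ, (cx n x : ℝ) * z ^ n

/-- the probability of the event `E` under the uniform law on the `n`-step self-avoiding walks in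
the closed upper half-plane -/
noncomputable def prob (n : ℕ) (E : (Fin (n + 1) → ℤ × ℤ) → Prop) : ℝ :=
  (Nat.card {ω : Fin (n + 1) → ℤ × ℤ // IsHSAW n ω ∧ E ω} : ℝ) /
    (Nat.card {ω : Fin (n + 1) → ℤ × ℤ // IsHSAW n ω} : ℝ)

/-- `ω` follows the dilated coarse walk `D γ` at speed `M`: `ω(M i) = D γ(i)`, and `ω(t)` stays
within distance `D` (maximum norm) from `D γ(i)` for `M i ≤ t < M (i + 1)`. -/
def Follows (D M N : ℕ) (γ : Fin (N + 1) → ℤ × ℤ) (ω : Fin (M * N + 1) → ℤ × ℤ) : Prop :=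
  ∀ (i : Fin (N + 1)) (t : Fin (M * N + 1)), M * (i : ℕ) ≤ t → (t : ℕ) < M * (i + 1) →
    ((t : ℕ) = M * i → ω t = (D * (γ i).1, D * (γ i).2)) ∧
    |(ω t).1 - D * (γ i).1| ≤ D ∧ |(ω t).2 - D * (γ i).2| ≤ D

/-- the height of the walk is at most `h` -/
def Below (h n : ℕ) (ω : Fin (n + 1) → ℤ × ℤ) : Prop := ∀ t, (ω t).2 ≤ h

/-- the walk stays in `[-r, r] × (-∞, r]` -/
def InBox (r : ℝ) (n : ℕ) (ω : Fin (n + 1) → ℤ × ℤ) : Prop :=
  ∀ t, |((ω t).1 : ℝ)| ≤ r ∧ ((ω t).2 : ℝ) ≤ r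

theorem c_eq (n : ℕ) : c n = TH795.EP.c n := TH795.EP2.card_walks n

theorem cx_eq (n : ℕ) (x : ℤ × ℤ) : cx n x = TH795.EP.a n x.1 x.2 := TH795.EP2.card_walks_to n x

theorem G_eq (z : ℝ) (k : ℕ) : G z ((k : ℤ), 0) = Y981.L2.Gz z k 0 := by
  unfold G Y981.L2.Gz
  apply tsum_congr
  intro n
  rw [cx_eq]

theorem isSAW_iff (n : ℕ) (ω : Fin (n + 1) → ℤ × ℤ) : IsSAW n ω ↔ ω ∈ H122R3.SX.walks n := by
  constructor
  · rintro ⟨h1, h2, h3⟩
    refine ⟨h1, h3, fun i => ?_⟩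
    unfold H122R3.SX.Adj
    rw [abs_sub_comm, abs_sub_comm (ω i.castSucc).2]
    exact h2 i
  · rintro ⟨h1, h2, h3⟩
    refine ⟨h1, fun i => ?_, h2⟩
    have := h3 i
    unfold H122R3.SX.Adj at this
    rw [abs_sub_comm, abs_sub_comm (ω i.castSucc).2] at this
    exact this

theorem card_eq (n : ℕ) (p : (Fin (n + 1) → ℤ × ℤ) → Prop) :
    Nat.card {ω : Fin (n + 1) → ℤ × ℤ // IsHSAW n ω ∧ p ω} =
      {ω | ω ∈ H122R3.SX.walks n ∧ (∀ t, 0 ≤ (ω t).2) ∧ p ω}.ncard := by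
  rw [← Nat.card_coe_set_eq]
  refine Nat.card_congr (Equiv.subtypeEquivRight fun ω => ?_)
  unfold IsHSAW
  rw [isSAW_iff]
  constructor
  · rintro ⟨⟨h1, h2⟩, h3⟩
    exact ⟨h1, h2, h3⟩
  · rintro ⟨h1, h2, h3⟩
    exact ⟨⟨h1, h2⟩, h3⟩

theorem h_eq (n : ℕ) : Nat.card {ω : Fin (n + 1) → ℤ × ℤ // IsHSAW n ω} =
    {ω | ω ∈ H122R3.SX.walks n ∧ ∀ t, 0 ≤ (ω t).2}.ncard := by
  rw [← Nat.card_coe_set_eq]
  refine Nat.card_congr (Equiv.subtypeEquivRight fun ω => ?_)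
  unfold IsHSAW
  rw [isSAW_iff]
  exact Iff.rfl

theorem h_le (n : ℕ) : Nat.card {ω : Fin (n + 1) → ℤ × ℤ // IsHSAW n ω} ≤ H122R3.SX.c n := by
  rw [h_eq, ← H122R3.SX.ncard_walks]
  exact Set.ncard_le_ncard (fun ω h => h.1) (H315.SAW.finite_walks n)

theorem h_pos (n : ℕ) : (0 : ℝ) < Nat.card {ω : Fin (n + 1) → ℤ × ℤ // IsHSAW n ω} := by
  rw [h_eq]
  have : 0 < {ω | ω ∈ H122R3.SX.walks n ∧ ∀ t, 0 ≤ (ω t).2}.ncard := by
    rw [Set.ncard_pos ((H315.SAW.finite_walks n).subset fun ω h => h.1)]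
    refine ⟨fun i => ((i : ℕ), 0), ⟨rfl, ?_, ?_⟩, ?_⟩
    · intro i j hij
      simp only [Prod.mk.injEq, and_true] at hij
      exact Fin.ext (by exact_mod_cast hij)
    · intro i
      unfold H122R3.SX.Adj
      simp
    · intro i
      simp
  exact_mod_cast this

theorem prob_of {n : ℕ} {E : (Fin (n + 1) → ℤ × ℤ) → Prop} {x : ℝ} {k : ℕ} (hx : 0 ≤ x)
    (h : x * H122R3.SX.c n ≤ k)
    (hk : k ≤ {ω | ω ∈ H122R3.SX.walks n ∧ (∀ t, 0 ≤ (ω t).2) ∧ E ω}.ncard) : x ≤ prob n E := by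
  unfold prob
  rw [le_div_iff₀ (h_pos n), card_eq]
  have h1 : (Nat.card {ω : Fin (n + 1) → ℤ × ℤ // IsHSAW n ω} : ℝ) ≤ H122R3.SX.c n := by
    exact_mod_cast h_le n
  refine (mul_le_mul_of_nonneg_left h1 hx).trans (h.trans ?_)
  exact_mod_cast hk

theorem box_of {r : ℝ} {n : ℕ} {x : ℝ} (hx : 0 ≤ x) (h : x * H122R3.SX.c n ≤ H315.SAW.ch r n) :
    x ≤ prob n (InBox r n) := by
  refine prob_of hx h ((H315.SAW.ch_le r n).trans ?_)
  apply Set.ncard_le_ncard _ ((H315.SAW.finite_walks n).subset fun ω h => h.1)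
  rintro ω ⟨h1, h2⟩
  exact ⟨h1, fun t => (h2 t).1, fun t => (h2 t).2⟩

theorem strip_of {h n : ℕ} {x : ℝ} (hx : 0 ≤ x) (hh : x * H122R3.SX.c n ≤ H315.SAW.cs h n) :
    x ≤ prob n (Below h n) := by
  refine prob_of hx hh ((H315.SAW.cs_le h n).trans ?_)
  apply Set.ncard_le_ncard _ ((H315.SAW.finite_walks n).subset fun ω h => h.1)
  rintro ω ⟨h1, h2⟩
  exact ⟨h1, fun t => (h2 t).1, fun t => (h2 t).2⟩

/-- the walk stays in a strip of height `h` -/
def InStrip (h n : ℕ) (ω : Fin (n + 1) → ℤ × ℤ) : Prop := ∀ i j, |(ω i).2 - (ω j).2| ≤ h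

theorem s_eq (h n : ℕ) : Nat.card {ω : Fin (n + 1) → ℤ × ℤ // IsSAW n ω ∧ InStrip h n ω} =
    H315.SAW.S h n := by
  unfold H315.SAW.S
  apply TH795.EP2.ncard_eq n (fun w => H315.SAW.Low h w) (fun ω => InStrip h n ω)
  intro w hw
  constructor
  · intro hl i j
    have key : ∀ i j : ℕ, i ≤ j → |(H981.path w j).2 - (H981.path w i).2| ≤ h := by
      intro i j hij
      obtain ⟨m, hm, -, hm2⟩ := H315.SAW.sub_of_path (w := w) hij
      rw [← hm2]
      exact hl m hm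
    rcases Nat.le_total i.1 j.1 with h1 | h1
    · have := key i.1 j.1 h1
      rw [abs_sub_comm] at this
      exact this
    · exact key j.1 i.1 h1
  · intro hs m hm
    obtain ⟨i, j, hij, hj, -, hm2⟩ := H315.SAW.path_of_sub hm
    rw [hm2]
    rw [hw] at hj
    exact hs ⟨j, by omega⟩ ⟨i, by omega⟩

theorem strip_le (h n : ℕ) : Nat.card {ω : Fin (n + 1) → ℤ × ℤ // IsHSAW n ω ∧ Below h n ω} ≤
    H315.SAW.S h n := by
  rw [← s_eq]
  have : Finite {ω : Fin (n + 1) → ℤ × ℤ // IsSAW n ω ∧ InStrip h n ω} := by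
    apply Set.Finite.to_subtype
    exact (H315.SAW.finite_walks n).subset fun ω h => (isSAW_iff n ω).1 h.1
  apply Nat.card_le_card_of_injective
    (fun ω : {ω : Fin (n + 1) → ℤ × ℤ // IsHSAW n ω ∧ Below h n ω} =>
      (⟨ω.1, ω.2.1.1, fun i j => by
        have a1 := ω.2.1.2 i
        have a2 := ω.2.1.2 j
        have a3 := ω.2.2 i
        have a4 := ω.2.2 j
        rw [abs_le]
        constructor <;> omega⟩ :
        {ω : Fin (n + 1) → ℤ × ℤ // IsSAW n ω ∧ InStrip h n ω}))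
  intro a b hab
  simp only [Subtype.mk.injEq] at hab
  exact Subtype.ext hab

/-- **Theorem.** Let `μ = lim c_n^(1/n)`; for `0 < z < 1/μ` the correlation length
`ξ(z) = (lim_k - (1/k) log G_z((k, 0)))^(-1)` exists and is positive and finite.
The uniform `n`-step self-avoiding walk in the closed upper half-plane satisfies:
(1) There is `K` such that for all `m ≥ 2`, with `ξ_m = ξ(e^(-1/m) / μ)`:
(a) there are `D ≤ K ξ_m (log m)^2` and `2 m ≤ M ≤ 300 m^2` such that for all `N` and all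
`N`-step self-avoiding walks `γ` with positive heights at all times `≥ 1` the `M N`-step walk
follows `D γ` with probability at least `exp (- K (N + 1) (log m)^3)`;
(b) for all `n` and all real `r` with `K ξ_m (log m)^2 ≤ r` and `K n (ξ_m (log m)^2)^2 ≤ m r^2`
the `n`-step walk stays in `[-r, r] × [0, r]` with probability at least
`exp (- K (1 + n/m) (log m)^3)`;
(c) for all `h ≥ K ξ_m (log m)^2` and all `n` its height is at most `h` with probability at least
`exp (- K ((log m)^3 + (n/m) (log m)^2))`;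
(d) for all `h` with `K (h + 1) ξ_m (log m)^2 ≤ m` and all `n ≥ 2` its height is at most `h` with
probability at most `exp (K (log n)^2 + (K - n/m) (log m)^2)`.
(2) There is `K` such that for all `n ≥ 2` and `K √n (log n)^2 ≤ r ≤ n` the probability in (b) is
at least `exp (- K (n/r)^2 (log n)^7)`.
(3) For every `ε > 0` there is `a > 0` such that for all large `n` and all
`n^(1/2 + ε) ≤ r ≤ n^(1 - ε)` it is at least `exp (- (n/r)^2 n^(- a / log log n))`. -/
theorem result : ∃ (μ : ℝ) (ξ : ℝ → ℝ), 0 < μ ∧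
    Tendsto (fun n : ℕ => (c n : ℝ) ^ (1 / (n : ℝ))) atTop (𝓝 μ) ∧
    (∀ z : ℝ, 0 < z → z < 1 / μ → 0 < ξ z ∧
      Tendsto (fun k : ℕ => - Real.log (G z ((k : ℤ), 0)) / k) atTop (𝓝 (1 / ξ z))) ∧
    (∃ K : ℝ, 0 < K ∧ ∀ m : ℕ, 2 ≤ m → ∀ x : ℝ, x = ξ (Real.exp (-1 / m) / μ) →
      (∃ D M : ℕ, 1 ≤ D ∧ (D : ℝ) ≤ K * x * Real.log m ^ 2 ∧ 2 * m ≤ M ∧ M ≤ 300 * m ^ 2 ∧
        ∀ (N : ℕ) (γ : Fin (N + 1) → ℤ × ℤ), IsSAW N γ → (∀ i, i ≠ 0 → 1 ≤ (γ i).2) →
          Real.exp (-(K * (N + 1) * Real.log m ^ 3)) ≤ prob (M * N) (Follows D M N γ)) ∧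
      (∀ (n : ℕ) (r : ℝ), K * x * Real.log m ^ 2 ≤ r →
        K * n * (x * Real.log m ^ 2) ^ 2 ≤ m * r ^ 2 →
        Real.exp (-(K * (1 + n / m) * Real.log m ^ 3)) ≤ prob n (InBox r n)) ∧
      (∀ h : ℕ, K * x * Real.log m ^ 2 ≤ h → ∀ n : ℕ,
        Real.exp (-(K * (Real.log m ^ 3 + n / m * Real.log m ^ 2))) ≤ prob n (Below h n)) ∧
      ∀ h : ℕ, K * (h + 1) * x * Real.log m ^ 2 ≤ m → ∀ n : ℕ, 2 ≤ n →
        prob n (Below h n) ≤ Real.exp (K * Real.log n ^ 2 + (K - n / m) * Real.log m ^ 2)) ∧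
    (∃ K : ℝ, 0 < K ∧ ∀ n : ℕ, 2 ≤ n → ∀ r : ℝ, K * Real.sqrt n * Real.log n ^ 2 ≤ r → r ≤ n →
      Real.exp (-(K * (n / r) ^ 2 * Real.log n ^ 7)) ≤ prob n (InBox r n)) ∧
    ∀ ε : ℝ, 0 < ε → ∃ a : ℝ, 0 < a ∧ ∀ᶠ n : ℕ in atTop, ∀ r : ℝ,
      (n : ℝ) ^ (1 / 2 + ε) ≤ r → r ≤ (n : ℝ) ^ (1 - ε) →
      Real.exp (-((n / r) ^ 2 * (n : ℝ) ^ (-(a / Real.log (Real.log n))))) ≤ prob n (InBox r n) := by
  have hmu := H981.mu_pos
  obtain ⟨K1, hK1, h1⟩ := H315.SAW.main
  obtain ⟨K2, hK2, h2⟩ := H315.SAW.half_SB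
  obtain ⟨K3, hK3, h3⟩ := H315.SAW.half_strip_lower
  obtain ⟨K4, hK4, h4⟩ := H315.SAW.half_strip_upper
  obtain ⟨K5, hK5, h5⟩ := H315.SAW.ball_all_of H315.SAW.half_SB
  refine ⟨H981.mu, Y981.L2.xi, hmu, ?_, ?_, ⟨K1 + K2 + K3 + K4, by positivity, fun m hm x hx => ?_⟩,
    ⟨K5, hK5, ?_⟩, ?_⟩
  · have h := H981.tendsto_root
    refine h.congr ?_
    intro n
    rw [c_eq, TH795.EP.c_eq]
  · intro z hz hz1
    have he : 0 < -Real.log (z * H981.mu) := by
      have h1 : z * H981.mu < 1 := by rwa [lt_div_iff₀ hmu] at hz1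
      have h2 := Real.log_neg (mul_pos hz hmu) h1
      linarith
    have hm := Y981.L2.mass_pos he
    constructor
    · unfold Y981.L2.xi
      positivity
    · have h := Y981.L2.G_tendsto hz hz1
      unfold Y981.L2.xi
      rw [one_div_one_div]
      refine h.congr ?_
      intro k
      rw [G_eq]
  · have hms := H315.SAW.ms_pos hm
    have hxi : x = 1 / H315.SAW.ms m := by
      rw [hx]
      have e := Y981.L2.e_z (1 / (m : ℝ))
      have e2 : -(1 / (m : ℝ)) = -1 / m := by ring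
      rw [e2] at e
      unfold Y981.L2.xi H315.SAW.ms
      rw [e]
    have hx0 : 0 < x := by rw [hxi]; positivity
    have e1 : x * Real.log m ^ 2 = Real.log m ^ 2 / H315.SAW.ms m := by rw [hxi]; ring
    have hl : 0 < Real.log (m : ℝ) := Real.log_pos (by exact_mod_cast (by omega : 1 < m))
    have hm0 : (0 : ℝ) < m := by exact_mod_cast (by omega : 0 < m)
    obtain ⟨y, hy⟩ : ∃ y, y = x * Real.log m ^ 2 := ⟨_, rfl⟩
    have hy0 : 0 < y := by rw [hy]; positivity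
    obtain ⟨⟨D, M, a1, a2, a3, a4, a5⟩, -⟩ := h1 m hm
    rw [← e1, ← hy] at a2
    refine ⟨⟨D, M, a1, ?_, a3, a4, fun N γ hγ hpos => ?_⟩, fun n r hr1 hr2 => ?_, fun h hh n => ?_,
      fun h hh n hn => ?_⟩
    · rw [mul_assoc, ← hy]
      refine a2.trans (mul_le_mul_of_nonneg_right ?_ hy0.le)
      linarith
    · obtain ⟨u, hu1, hu2, hu3⟩ := H315.SAW.half_follow (D := D) (M := M) a1 (by omega)
        ((isSAW_iff N γ).1 hγ) hpos
      have b1 := a5 u hu1
      rw [hu2] at b1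
      refine le_trans (Real.exp_le_exp.2 ?_) (prob_of (Real.exp_pos _).le b1 hu3)
      have : 0 ≤ (K2 + K3 + K4) * ((N : ℝ) + 1) * Real.log m ^ 3 := by positivity
      linarith
    · rw [mul_assoc, ← hy] at hr1
      rw [← hy] at hr2
      have b1 := h2 m hm n r (by
        rw [← e1, ← hy]
        refine le_trans (mul_le_mul_of_nonneg_right ?_ hy0.le) hr1
        linarith) (by
        rw [← e1, ← hy]
        refine le_trans ?_ hr2
        gcongr
        linarith)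
      refine le_trans (Real.exp_le_exp.2 ?_) (box_of (Real.exp_pos _).le b1)
      have : 0 ≤ (K1 + K3 + K4) * (1 + (n : ℝ) / m) * Real.log m ^ 3 := by positivity
      linarith
    · rw [mul_assoc, ← hy] at hh
      have b1 := h3 m hm h (by
        rw [← e1, ← hy]
        refine le_trans (mul_le_mul_of_nonneg_right ?_ hy0.le) hh
        linarith) n
      refine le_trans (Real.exp_le_exp.2 ?_) (strip_of (Real.exp_pos _).le b1)
      have : 0 ≤ (K1 + K2 + K4) * (Real.log m ^ 3 + (n : ℝ) / m * Real.log m ^ 2) := by positivity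
      linarith
    · rw [mul_assoc, ← hy] at hh
      have b1 := h4 m hm h (by
        rw [← e1, ← hy]
        refine le_trans (mul_le_mul_of_nonneg_right ?_ hy0.le) hh
        have : (0 : ℝ) ≤ (h : ℝ) + 1 := by positivity
        apply mul_le_mul_of_nonneg_right _ this
        linarith) n hn
      unfold prob
      rw [div_le_iff₀ (h_pos n), h_eq]
      have b2 : (Nat.card {ω : Fin (n + 1) → ℤ × ℤ // IsHSAW n ω ∧ Below h n ω} : ℝ) ≤
          H315.SAW.S h n := by exact_mod_cast strip_le h n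
      refine b2.trans (b1.trans (mul_le_mul_of_nonneg_right (Real.exp_le_exp.2 ?_)
        (Nat.cast_nonneg _)))
      have c1 : 0 ≤ (K1 + K2 + K3) * Real.log (n : ℝ) ^ 2 := by positivity
      have c2 : 0 ≤ (K1 + K2 + K3) * Real.log (m : ℝ) ^ 2 := by positivity
      linarith
  · intro n hn r hr1 hr2
    exact box_of (Real.exp_pos _).le (h5 n hn r hr1 hr2)
  · intro ε hε
    obtain ⟨a, ha, h6⟩ := H315.SAW.ball_small_of H315.SAW.half_SB hε
    refine ⟨a, ha, ?_⟩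
    filter_upwards [h6] with n hn r hr1 hr2
    exact box_of (Real.exp_pos _).le (hn r hr1 hr2)

end Pool.Agent.Results.MP_df1d0b_pr.SmallHeightsAndShapes
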